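import Pool.Agent.N236.UR.Stm3

/-!
# UR/CRP (project of helper236): power maps increase cross-ratios
-/

set_option autoImplicit false

open Finset

namespace Pool.Agent.N803.UR

open Pool.Agent.N236.UR

theorem crp_lt {x y : ℝ} (hx : 0 < x) (hxy : x < y) {i j : ℕ} (hij : i < j) :
    x ^ j * y ^ i < x ^ i * y ^ j := by
  obtain ⟨k, rfl⟩ := Nat.exists_eq_add_of_lt hij
  have hy : 0 < y := hx.trans hxy
  have h1 : x ^ (k + 1) < y ^ (k + 1) := pow_lt_pow_left₀ hxy hx.le (by omega)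
  have h2 : 0 < x ^ i * y ^ i := by positivity
  have h3 := mul_lt_mul_of_pos_left h1 h2
  calc x ^ (i + k + 1) * y ^ i = x ^ i * y ^ i * x ^ (k + 1) := by ring
    _ < x ^ i * y ^ i * y ^ (k + 1) := h3
    _ = x ^ i * y ^ (i + k + 1) := by ring

theorem crp_sum {m : ℕ} (hm : 2 ≤ m) {x₁ x₂ y₁ y₂ : ℝ} (hx : 0 < x₁) (hxx : x₁ < x₂)
    (hy : 0 < y₁) (hyy : y₁ < y₂) :
    (∑ i ∈ range m, x₁ ^ i * y₁ ^ (m - 1 - i)) * (∑ i ∈ range m, x₂ ^ i * y₂ ^ (m - 1 - i)) <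
      (∑ i ∈ range m, x₁ ^ i * y₂ ^ (m - 1 - i)) * (∑ i ∈ range m, x₂ ^ i * y₁ ^ (m - 1 - i)) := by
  have key : 2 * ((∑ i ∈ range m, x₁ ^ i * y₂ ^ (m - 1 - i)) *
      (∑ i ∈ range m, x₂ ^ i * y₁ ^ (m - 1 - i)) -
      (∑ i ∈ range m, x₁ ^ i * y₁ ^ (m - 1 - i)) * (∑ i ∈ range m, x₂ ^ i * y₂ ^ (m - 1 - i))) =
      ∑ i ∈ range m, ∑ j ∈ range m, (x₁ ^ i * x₂ ^ j - x₁ ^ j * x₂ ^ i) *
        (y₂ ^ (m - 1 - i) * y₁ ^ (m - 1 - j) - y₁ ^ (m - 1 - i) * y₂ ^ (m - 1 - j)) := by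
    have h1 : ∀ i j : ℕ, (x₁ ^ i * x₂ ^ j - x₁ ^ j * x₂ ^ i) *
        (y₂ ^ (m - 1 - i) * y₁ ^ (m - 1 - j) - y₁ ^ (m - 1 - i) * y₂ ^ (m - 1 - j)) =
        ((x₁ ^ i * y₂ ^ (m - 1 - i)) * (x₂ ^ j * y₁ ^ (m - 1 - j)) -
          (x₁ ^ i * y₁ ^ (m - 1 - i)) * (x₂ ^ j * y₂ ^ (m - 1 - j))) +
        ((x₂ ^ i * y₁ ^ (m - 1 - i)) * (x₁ ^ j * y₂ ^ (m - 1 - j)) -
          (x₂ ^ i * y₂ ^ (m - 1 - i)) * (x₁ ^ j * y₁ ^ (m - 1 - j))) := by
      intro i j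
      ring
    simp only [h1, Finset.sum_add_distrib, Finset.sum_sub_distrib, ← Finset.mul_sum,
      ← Finset.sum_mul]
    ring
  have hpos : 0 < ∑ i ∈ range m, ∑ j ∈ range m, (x₁ ^ i * x₂ ^ j - x₁ ^ j * x₂ ^ i) *
        (y₂ ^ (m - 1 - i) * y₁ ^ (m - 1 - j) - y₁ ^ (m - 1 - i) * y₂ ^ (m - 1 - j)) := by
    have hlt : ∀ i j : ℕ, i < j → j < m → 0 < (x₁ ^ i * x₂ ^ j - x₁ ^ j * x₂ ^ i) *
        (y₂ ^ (m - 1 - i) * y₁ ^ (m - 1 - j) - y₁ ^ (m - 1 - i) * y₂ ^ (m - 1 - j)) := by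
      intro i j hij hj
      have h1 := crp_lt hx hxx hij
      have h2 := crp_lt hy hyy (show m - 1 - j < m - 1 - i by omega)
      refine mul_pos (by linarith) ?_
      have h3 : y₂ ^ (m - 1 - i) * y₁ ^ (m - 1 - j) = y₁ ^ (m - 1 - j) * y₂ ^ (m - 1 - i) :=
        mul_comm _ _
      rw [h3]
      linarith
    have hnn : ∀ i j : ℕ, i < m → j < m → 0 ≤ (x₁ ^ i * x₂ ^ j - x₁ ^ j * x₂ ^ i) *
        (y₂ ^ (m - 1 - i) * y₁ ^ (m - 1 - j) - y₁ ^ (m - 1 - i) * y₂ ^ (m - 1 - j)) := by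
      intro i j hi hj
      rcases lt_trichotomy i j with h | h | h
      · exact (hlt i j h hj).le
      · rw [h, sub_self, zero_mul]
      · have h1 := (hlt j i h hi).le
        have h2 : (x₁ ^ i * x₂ ^ j - x₁ ^ j * x₂ ^ i) *
            (y₂ ^ (m - 1 - i) * y₁ ^ (m - 1 - j) - y₁ ^ (m - 1 - i) * y₂ ^ (m - 1 - j)) =
            (x₁ ^ j * x₂ ^ i - x₁ ^ i * x₂ ^ j) *
            (y₂ ^ (m - 1 - j) * y₁ ^ (m - 1 - i) - y₁ ^ (m - 1 - j) * y₂ ^ (m - 1 - i)) := by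
          ring
        rw [h2]
        exact h1
    refine Finset.sum_pos' (fun i hi => Finset.sum_nonneg fun j hj =>
      hnn i j (Finset.mem_range.1 hi) (Finset.mem_range.1 hj))
      ⟨0, Finset.mem_range.2 (by omega), ?_⟩
    exact Finset.sum_pos' (fun j hj => hnn 0 j (by omega) (Finset.mem_range.1 hj))
      ⟨1, Finset.mem_range.2 (by omega), hlt 0 1 (by omega) (by omega)⟩
  rw [← key] at hpos
  linarith

theorem t_crp : S_CRP := by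
  intro m a b c d hm ha hab hbc hcd
  have h1 : ∀ x y : ℝ, x ^ m - y ^ m = (∑ i ∈ range m, x ^ i * y ^ (m - 1 - i)) * (x - y) :=
    fun x y => (Commute.geom_sum₂_mul (Commute.all x y) m).symm
  have hsym : ∀ x y : ℝ, x ^ m - y ^ m = (∑ i ∈ range m, y ^ i * x ^ (m - 1 - i)) * (x - y) := by
    intro x y
    have h2 := h1 y x
    linarith
  have key := crp_sum hm ha (hab.trans hbc) (ha.trans hab) (hbc.trans hcd)
  have h2 : 0 < (b - a) * (d - c) * ((d - a) * (c - b)) := by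
    have e1 : 0 < b - a := by linarith
    have e2 : 0 < d - c := by linarith
    have e3 : 0 < d - a := by linarith
    have e4 : 0 < c - b := by linarith
    positivity
  have h3 := mul_lt_mul_of_pos_right key h2
  rw [hsym b a, hsym d c, hsym d a, h1 c b]
  calc _ = (∑ i ∈ range m, a ^ i * b ^ (m - 1 - i)) * (∑ i ∈ range m, c ^ i * d ^ (m - 1 - i)) *
        ((b - a) * (d - c) * ((d - a) * (c - b))) := by ring
    _ < _ := h3
    _ = _ := by ring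

end Pool.Agent.N803.UR
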