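import Pool.Agent.N236.UR.Stm

/-!
# Project UR (helper236), part CONF (helper803): existence of the invariant metric
-/

set_option autoImplicit false

namespace Pool.Agent.N803.UR

open Pool.Agent.N236.UR

theorem wd_swap {L : Type} [Field L] (x y : L × L) : wd x y = - wd y x := by
  unfold wd; ring

theorem per_mod {α : Type} {n : ℕ} (f : ℤ → α) (hf : ∀ i : ℤ, f (i + n) = f i) (i : ℤ) :
    f (i % n) = f i := by
  have h : Function.Periodic f (n : ℤ) := hf
  have e : i = i % n + (i / n) * n := by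
    have := Int.emod_add_mul_ediv i n
    rw [mul_comm] at this
    exact this.symm
  conv_rhs => rw [e]
  exact (h.int_mul (i / n) (i % n)).symm

theorem prod_shift {n : ℕ} (f : ℤ → ℝ) (h : f n = f 0) (h0 : f 0 ≠ 0) :
    ∏ i ∈ Finset.range n, f ((i : ℤ) + 1) = ∏ i ∈ Finset.range n, f i := by
  have e1 := Finset.prod_range_succ (fun i : ℕ => f i) n
  have e2 := Finset.prod_range_succ' (fun i : ℕ => f i) n
  rw [e1] at e2
  push_cast at e2
  rw [h] at e2
  exact (mul_right_cancel₀ h0 e2).symm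

/-- Part CONF. -/
theorem t_conf (h0 : S_RK) : S_CONF := by
  intro L _ v n V hn hV hcr
  obtain ⟨W, hW⟩ : ∃ W : ℤ → ℤ → ℝ, ∀ i j, W i j = v (wd (V i) (V j)) := ⟨_, fun _ _ => rfl⟩
  have hWs : ∀ i j, W i j = W j i := by
    intro i j
    rw [hW, hW, wd_swap, v.map_neg]
  have hWp : ∀ i j : ℤ, W (i + n) j = W i j := by
    intro i j
    rw [hW, hW, hV.1]
  have hW0 : ∀ i j : ℤ, W i j = 0 ↔ (n : ℤ) ∣ i - j := by
    intro i j
    rw [hW, v.eq_zero, hV.2]
  have hWpos : ∀ i j : ℤ, ¬ (n : ℤ) ∣ i - j → 0 < W i j := by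
    intro i j h
    refine lt_of_le_of_ne ?_ (fun h1 => h ((hW0 i j).1 h1.symm))
    rw [hW]
    exact v.nonneg _
  have hsh : ∀ i j : ℤ, i + 1 - (j + 1) = i - j := fun i j => by ring
  obtain ⟨a, ha, hap, hR⟩ := h0 n (fun i j => W (i + 1) (j + 1) / W i j) hn
    (fun i j => by rw [hWs (i + 1), hWs i])
    (fun i j => by
      have e : i + (n : ℤ) + 1 = (i + 1) + n := by ring
      rw [e, hWp, hWp])
    (fun i j h => div_pos (hWpos _ _ (by rwa [hsh])) (hWpos _ _ h))
    (fun a b c d h => by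
      have h1 := hcr a b c d h
      simp only [← hW] at h1
      obtain ⟨hab, hac, had, hbc, hbd, hcd⟩ := h
      have n1 := (hWpos a b hab).ne'
      have n2 := (hWpos c d hcd).ne'
      have n3 := (hWpos a c hac).ne'
      have n4 := (hWpos b d hbd).ne'
      field_simp
      linear_combination h1)
  -- the product over a period is one
  have hn0 : (0 : ℤ) < n := by omega
  have hP : ∏ i ∈ Finset.range n, a i = 1 := by
    have hW1 : ∀ i : ℤ, W i (i + 1) ≠ 0 := by
      intro i h5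
      rw [hW0] at h5
      have h6 : (n : ℤ) ∣ 1 := by
        have := (dvd_neg (α := ℤ)).2 h5
        simpa using this
      have := Int.le_of_dvd one_pos h6
      omega
    have h1 : ∏ i ∈ Finset.range n, (W ((i : ℤ) + 1) ((i : ℤ) + 1 + 1) / W i ((i : ℤ) + 1)) = 1 := by
      have h3 : W (n : ℤ) ((n : ℤ) + 1) = W 0 (0 + 1) := by
        have e1 := hWp 0 ((n : ℤ) + 1)
        rw [zero_add] at e1
        rw [e1, hWs, add_comm (n : ℤ) 1, hWp, hWs, zero_add]
      rw [Finset.prod_div_distrib, prod_shift (fun i : ℤ => W i (i + 1)) h3 (hW1 0)]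
      exact div_self (Finset.prod_ne_zero_iff.2 fun i _ => hW1 i)
    have h5 : ∏ i ∈ Finset.range n, (W ((i : ℤ) + 1) ((i : ℤ) + 1 + 1) / W i ((i : ℤ) + 1)) =
        ∏ i ∈ Finset.range n, (a i * a ((i : ℤ) + 1)) := by
      refine Finset.prod_congr rfl fun i _ => hR i ((i : ℤ) + 1) ?_
      intro h6
      have h7 : (n : ℤ) ∣ 1 := by
        have := (dvd_neg (α := ℤ)).2 h6
        simpa using this
      have := Int.le_of_dvd one_pos h7
      omega
    rw [h5, Finset.prod_mul_distrib] at h1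
    have h8 : ∏ i ∈ Finset.range n, a ((i : ℤ) + 1) = ∏ i ∈ Finset.range n, a i := by
      refine prod_shift a ?_ (ha 0).ne'
      have := hap 0
      rwa [zero_add] at this
    rw [h8] at h1
    have h9 : 0 < ∏ i ∈ Finset.range n, a i := Finset.prod_pos fun i _ => ha i
    nlinarith
  obtain ⟨c, hc⟩ : ∃ c : ℤ → ℝ, ∀ i, c i = ∏ t ∈ Finset.range (i % n).toNat, (a t)⁻¹ :=
    ⟨_, fun _ => rfl⟩
  have hcpos : ∀ i, 0 < c i := by
    intro i
    rw [hc]
    exact Finset.prod_pos fun t _ => inv_pos.2 (ha t)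
  have hcp : ∀ i : ℤ, c (i + n) = c i := by
    intro i
    rw [hc, hc, Int.add_emod_right]
  have hcs : ∀ i : ℤ, c (i + 1) = c i * (a i)⁻¹ := by
    intro i
    have hm0 := Int.emod_nonneg i (show (n : ℤ) ≠ 0 by omega)
    have hm1 := Int.emod_lt_of_pos i hn0
    obtain ⟨m, hm⟩ : ∃ m : ℕ, (m : ℤ) = i % n := ⟨(i % n).toNat, Int.toNat_of_nonneg hm0⟩
    have hai : a i = a (m : ℤ) := by rw [hm, per_mod a hap]
    have e1 : (i + 1) % n = ((m : ℤ) + 1) % n := by
      rw [hm, Int.emod_add_emod]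
    rw [hc i, ← hm, Int.toNat_natCast, hai, ← Finset.prod_range_succ (fun t : ℕ => (a t)⁻¹) m,
      hc (i + 1), e1]
    by_cases h : m + 1 < n
    · have e2 : ((m : ℤ) + 1) % n = ((m + 1 : ℕ) : ℤ) := by
        rw [Int.emod_eq_of_lt (by omega) (by omega)]
        push_cast
        ring
      rw [e2, Int.toNat_natCast]
    · have h' : m + 1 = n := by omega
      have e2 : ((m : ℤ) + 1) % n = 0 := by
        have : ((m : ℤ) + 1) = n := by omega
        rw [this, Int.emod_self]
      rw [e2, h', Int.toNat_zero, Finset.prod_range_zero, Finset.prod_inv_distrib, hP, inv_one]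
  refine ⟨c, hV, hcpos, hcp, ?_⟩
  intro i j
  unfold dl
  rw [← hW, ← hW, hcs, hcs]
  by_cases h : (n : ℤ) ∣ i - j
  · rw [(hW0 (i + 1) (j + 1)).2 (by rwa [hsh]), (hW0 i j).2 h, mul_zero, mul_zero]
  · have h1 := hR i j h
    have h2 := (hWpos i j h).ne'
    have h3 := (ha i).ne'
    have h4 := (ha j).ne'
    rw [div_eq_iff h2] at h1
    rw [h1]
    field_simp

end Pool.Agent.N803.UR
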